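import Mathlib
import Pool.Agent.Helper55.RotaRado

/-!
Rank functions: contraction, union (sums), splitting, and the matroid intersection theorem.
-/

set_option autoImplicit false

namespace Pool.Agent.Helper10.SPL

open Finset
open Pool.Agent.Helper55.Rota

variable {α : Type} [DecidableEq α]

/-- contraction of an element -/
def contr (A : RankFn α) (e : α) : RankFn α where
  r X := A.r (insert e X) - A.r {e}
  empty := by simp
  mono := by
    intro X Y h
    have h1 := A.mono (insert_subset_insert e h)
    omega
  insert_le := by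
    intro X x
    have h1 := A.insert_le (insert e X) x
    have h2 : insert e (insert x X) = insert x (insert e X) := Finset.insert_comm e x X
    have h3 : A.r {e} ≤ A.r (insert e X) := A.mono (by simp)
    rw [h2]
    omega
  submod := by
    intro X Y
    have h1 := A.submod (insert e X) (insert e Y)
    have h2 : insert e X ∪ insert e Y = insert e (X ∪ Y) := by
      ext a; simp only [mem_union, mem_insert]; tauto
    have h3 : insert e X ∩ insert e Y = insert e (X ∩ Y) := by
      ext a; simp only [mem_inter, mem_insert]; tauto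
    rw [h2, h3] at h1
    have h4 : A.r {e} ≤ A.r (insert e (X ∪ Y)) := A.mono (by simp)
    have h5 : A.r {e} ≤ A.r (insert e (X ∩ Y)) := A.mono (by simp)
    have h6 : A.r {e} ≤ A.r (insert e X) := A.mono (by simp)
    have h7 : A.r {e} ≤ A.r (insert e Y) := A.mono (by simp)
    omega

/-- splitting at `F`: direct sum of the restriction to `F` and the contraction of `F` -/
def split (A : RankFn α) (F : Finset α) : RankFn α where
  r X := A.r (X ∩ F) + A.r (X ∪ F) - A.r F
  empty := by simp [A.empty]
  mono := by
    intro X Y h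
    have h1 := A.mono (inter_subset_inter_right h : X ∩ F ⊆ Y ∩ F)
    have h2 := A.mono (union_subset_union_left h : X ∪ F ⊆ Y ∪ F)
    omega
  insert_le := by
    intro X x
    have hF : A.r F ≤ A.r (X ∪ F) := A.mono subset_union_right
    by_cases hx : x ∈ F
    · have h1 : insert x X ∩ F = insert x (X ∩ F) := by
        ext a; simp only [mem_inter, mem_insert]
        constructor
        · rintro ⟨h1 | h1, h2⟩
          · exact Or.inl h1
          · exact Or.inr ⟨h1, h2⟩
        · rintro (h1 | h1)
          · exact ⟨Or.inl h1, h1 ▸ hx⟩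
          · exact ⟨Or.inr h1.1, h1.2⟩
      have h2 : insert x X ∪ F = X ∪ F := by
        ext a; simp only [mem_union, mem_insert]
        constructor
        · rintro ((h1 | h1) | h1)
          · exact Or.inr (h1 ▸ hx)
          · exact Or.inl h1
          · exact Or.inr h1
        · rintro (h1 | h1)
          · exact Or.inl (Or.inr h1)
          · exact Or.inr h1
      rw [h1, h2]
      have h3 := A.insert_le (X ∩ F) x
      omega
    · have h1 : insert x X ∩ F = X ∩ F := by
        ext a; simp only [mem_inter, mem_insert]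
        constructor
        · rintro ⟨h1 | h1, h2⟩
          · exact absurd (h1 ▸ h2) hx
          · exact ⟨h1, h2⟩
        · rintro h1
          exact ⟨Or.inr h1.1, h1.2⟩
      have h2 : insert x X ∪ F = insert x (X ∪ F) := by
        ext a; simp only [mem_union, mem_insert]; tauto
      rw [h1, h2]
      have h3 := A.insert_le (X ∪ F) x
      omega
  submod := by
    intro X Y
    have h1 := A.submod (X ∩ F) (Y ∩ F)
    have h2 := A.submod (X ∪ F) (Y ∪ F)
    have e1 : (X ∩ F) ∪ (Y ∩ F) = (X ∪ Y) ∩ F := by
      ext a; simp only [mem_inter, mem_union]; tauto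
    have e2 : (X ∩ F) ∩ (Y ∩ F) = (X ∩ Y) ∩ F := by
      ext a; simp only [mem_inter]; tauto
    have e3 : (X ∪ F) ∪ (Y ∪ F) = (X ∪ Y) ∪ F := by
      ext a; simp only [mem_union]; tauto
    have e4 : (X ∪ F) ∩ (Y ∪ F) = (X ∩ Y) ∪ F := by
      ext a; simp only [mem_inter, mem_union]; tauto
    rw [e1, e2] at h1
    rw [e3, e4] at h2
    have f1 : A.r F ≤ A.r (X ∪ F) := A.mono subset_union_right
    have f2 : A.r F ≤ A.r (Y ∪ F) := A.mono subset_union_right
    have f3 : A.r F ≤ A.r ((X ∪ Y) ∪ F) := A.mono subset_union_right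
    have f4 : A.r F ≤ A.r ((X ∩ Y) ∪ F) := A.mono subset_union_right
    omega

lemma split_r (A : RankFn α) (F X : Finset α) :
    (split A F).r X + A.r F = A.r (X ∩ F) + A.r (X ∪ F) := by
  have h1 : A.r F ≤ A.r (X ∪ F) := A.mono subset_union_right
  change A.r (X ∩ F) + A.r (X ∪ F) - A.r F + A.r F = _
  omega

lemma split_le (A : RankFn α) (F X : Finset α) : (split A F).r X ≤ A.r X := by
  have h1 := split_r A F X
  have h2 := A.submod X F
  omega

/-- the minimum in the matroid union theorem -/
def fmin (A : RankFn α) (q : ℕ) (Y : Finset α) : ℕ :=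
  Y.powerset.inf' (powerset_nonempty Y) (fun X => q * A.r X + (Y \ X).card)

lemma fmin_le (A : RankFn α) (q : ℕ) {X Y : Finset α} (h : X ⊆ Y) :
    fmin A q Y ≤ q * A.r X + (Y \ X).card :=
  Finset.inf'_le (fun X => q * A.r X + (Y \ X).card) (mem_powerset.mpr h)

lemma fmin_exists (A : RankFn α) (q : ℕ) (Y : Finset α) :
    ∃ X ⊆ Y, fmin A q Y = q * A.r X + (Y \ X).card := by
  obtain ⟨X, hX, e⟩ := Finset.exists_mem_eq_inf' (powerset_nonempty Y)
      (fun X => q * A.r X + (Y \ X).card)
  exact ⟨X, mem_powerset.mp hX, e⟩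

/-- the rank function of the union of `q` copies -/
def fold (A : RankFn α) (q : ℕ) : RankFn α where
  r := fmin A q
  empty := by
    have h := fmin_le A q (Finset.Subset.refl (∅ : Finset α))
    simpa [A.empty] using h
  mono := by
    intro Y Z h
    obtain ⟨X, hX, e⟩ := fmin_exists A q Z
    rw [e]
    refine (fmin_le A q (inter_subset_right : X ∩ Y ⊆ Y)).trans ?_
    have h1 := A.mono (inter_subset_left : X ∩ Y ⊆ X)
    have h2 : (Y \ (X ∩ Y)).card ≤ (Z \ X).card := by
      apply card_le_card
      intro a ha
      simp only [mem_sdiff, mem_inter, not_and] at ha ⊢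
      exact ⟨h ha.1, fun h3 => ha.2 h3 ha.1⟩
    have h3 : q * A.r (X ∩ Y) ≤ q * A.r X := Nat.mul_le_mul_left q h1
    omega
  insert_le := by
    intro Y x
    obtain ⟨X, hX, e⟩ := fmin_exists A q Y
    rw [e]
    refine (fmin_le A q (hX.trans (subset_insert x Y))).trans ?_
    have h1 : (insert x Y \ X).card ≤ (Y \ X).card + 1 := by
      have h2 : insert x Y \ X ⊆ insert x (Y \ X) := by
        intro a ha
        simp only [mem_sdiff, mem_insert] at ha ⊢
        tauto
      exact (card_le_card h2).trans (card_insert_le _ _)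
    omega
  submod := by
    intro Y1 Y2
    obtain ⟨X1, hX1, e1⟩ := fmin_exists A q Y1
    obtain ⟨X2, hX2, e2⟩ := fmin_exists A q Y2
    rw [e1, e2]
    have h1 := fmin_le A q (union_subset_union hX1 hX2)
    have h2 := fmin_le A q (inter_subset_inter hX1 hX2)
    refine (Nat.add_le_add h1 h2).trans ?_
    have h3 := A.submod X1 X2
    have c1 := card_sdiff_add_card_eq_card (union_subset_union hX1 hX2 : X1 ∪ X2 ⊆ Y1 ∪ Y2)
    have c2 := card_sdiff_add_card_eq_card (inter_subset_inter hX1 hX2 : X1 ∩ X2 ⊆ Y1 ∩ Y2)
    have c3 := card_sdiff_add_card_eq_card hX1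
    have c4 := card_sdiff_add_card_eq_card hX2
    have c5 := card_union_add_card_inter X1 X2
    have c6 := card_union_add_card_inter Y1 Y2
    have h4 : q * A.r (X1 ∪ X2) + q * A.r (X1 ∩ X2) ≤ q * A.r X1 + q * A.r X2 := by
      rw [← Nat.mul_add, ← Nat.mul_add]; exact Nat.mul_le_mul_left q h3
    omega

lemma fold_le (A : RankFn α) (q : ℕ) {X Y : Finset α} (h : X ⊆ Y) :
    (fold A q).r Y ≤ q * A.r X + (Y \ X).card := fmin_le A q h

lemma fold_exists (A : RankFn α) (q : ℕ) (Y : Finset α) :
    ∃ X ⊆ Y, (fold A q).r Y = q * A.r X + (Y \ X).card := fmin_exists A q Y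

/-- Edmonds' matroid intersection theorem for rank functions. -/
theorem inter_thm : ∀ (m : ℕ) (A B : RankFn α) (S : Finset α) (k : ℕ), S.card = m →
    (∀ X ⊆ S, k ≤ A.r X + B.r (S \ X)) →
    ∃ I ⊆ S, I.card = k ∧ A.r I = k ∧ B.r I = k := by
  intro m
  induction m with
  | zero =>
    intro A B S k hS H
    have hS0 : S = ∅ := card_eq_zero.mp hS
    subst hS0
    have h1 := H ∅ (by simp)
    have hk : k = 0 := by
      simpa [A.empty, B.empty] using h1
    exact ⟨∅, by simp, by simp [hk], by simp [hk, A.empty], by simp [hk, B.empty]⟩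
  | succ m ih =>
    intro A B S k hS H
    rcases Nat.eq_zero_or_pos k with hk0 | hk0
    · exact ⟨∅, by simp, by simp [hk0], by simp [hk0, A.empty], by simp [hk0, B.empty]⟩
    -- an element which is a nonloop in both
    have hex : ∃ e ∈ S, A.r {e} = 1 ∧ B.r {e} = 1 := by
      by_contra hcon
      push Not at hcon
      have hone : ∀ (C : RankFn α) (e : α), C.r {e} ≤ 1 := fun C e => by
        have := C.le_card {e}; simpa using this
      have h1 := H (S.filter (fun e => A.r {e} = 0)) (filter_subset _ _)
      have hz : ∀ (C : RankFn α) (Z : Finset α), (∀ e ∈ Z, C.r {e} = 0) → C.r Z = 0 := by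
        intro C Z
        induction Z using Finset.induction_on with
        | empty => intro _; exact C.empty
        | insert z Z hz ih2 =>
          intro h
          have h3 := ih2 (fun e he => h e (mem_insert_of_mem he))
          have h4 := h z (mem_insert_self z Z)
          have h5 := C.union_le {z} Z
          have h6 : {z} ∪ Z = insert z Z := rfl
          rw [h6] at h5
          omega
      have h2 := hz A (S.filter (fun e => A.r {e} = 0)) (fun e he => (mem_filter.mp he).2)
      have h3 := hz B (S \ S.filter (fun e => A.r {e} = 0)) (by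
        intro e he
        rw [mem_sdiff, mem_filter] at he
        have h4 : A.r {e} ≠ 0 := fun h => he.2 ⟨he.1, h⟩
        have h5 := hone A e
        have h6 := hone B e
        by_contra h7
        exact hcon e he.1 (by omega) (by omega))
      omega
    obtain ⟨e, he, hAe, hBe⟩ := hex
    have hS' : (S.erase e).card = m := by
      rw [card_erase_of_mem he, hS]; rfl
    by_cases hdel : ∀ X ⊆ S.erase e, k ≤ A.r X + B.r (S.erase e \ X)
    · obtain ⟨I, hI, h⟩ := ih A B (S.erase e) k hS' hdel
      exact ⟨I, hI.trans (erase_subset _ _), h⟩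
    by_cases hcon : ∀ X ⊆ S.erase e, k - 1 ≤ (contr A e).r X + (contr B e).r (S.erase e \ X)
    · obtain ⟨I, hI, hI1, hI2, hI3⟩ := ih (contr A e) (contr B e) (S.erase e) (k - 1) hS' hcon
      have heI : e ∉ I := fun h => (mem_erase.mp (hI h)).1 rfl
      have hA : A.r {e} ≤ A.r (insert e I) := A.mono (by simp)
      have hB : B.r {e} ≤ B.r (insert e I) := B.mono (by simp)
      refine ⟨insert e I, insert_subset he (hI.trans (erase_subset _ _)), ?_, ?_, ?_⟩
      · rw [card_insert_of_notMem heI, hI1]; omega
      · change A.r (insert e I) - A.r {e} = k - 1 at hI2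
        omega
      · change B.r (insert e I) - B.r {e} = k - 1 at hI3
        omega
    exfalso
    push Not at hdel hcon
    obtain ⟨X1, hX1, h1⟩ := hdel
    obtain ⟨X2, hX2, h2⟩ := hcon
    have h2' : A.r (insert e X2) + B.r (S \ X2) ≤ k := by
      have e1 : insert e (S.erase e \ X2) = S \ X2 := by
        ext a
        simp only [mem_insert, mem_sdiff, mem_erase]
        constructor
        · rintro (rfl | h)
          · exact ⟨he, fun h => (mem_erase.mp (hX2 h)).1 rfl⟩
          · exact ⟨h.1.2, h.2⟩
        · rintro ⟨h3, h4⟩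
          by_cases hae : a = e
          · exact Or.inl hae
          · exact Or.inr ⟨⟨hae, h3⟩, h4⟩
      have hA : A.r {e} ≤ A.r (insert e X2) := A.mono (by simp)
      have hB : B.r {e} ≤ B.r (insert e (S.erase e \ X2)) := B.mono (by simp)
      change A.r (insert e X2) - A.r {e} + (B.r (insert e (S.erase e \ X2)) - B.r {e}) < k - 1 at h2
      rw [e1] at h2 hB
      omega
    have s1 := A.submod X1 (insert e X2)
    have s2 := B.submod (S.erase e \ X1) (S \ X2)
    have e1 : X1 ∩ insert e X2 = X1 ∩ X2 := by
      ext a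
      simp only [mem_inter, mem_insert]
      constructor
      · rintro ⟨h3, h4 | h4⟩
        · exact absurd h4 (mem_erase.mp (hX1 h3)).1
        · exact ⟨h3, h4⟩
      · rintro ⟨h3, h4⟩
        exact ⟨h3, Or.inr h4⟩
    have e2 : (S.erase e \ X1) ∪ (S \ X2) = S \ (X1 ∩ X2) := by
      ext a
      simp only [mem_union, mem_sdiff, mem_erase, mem_inter]
      constructor
      · rintro (⟨⟨h3, h4⟩, h5⟩ | ⟨h3, h4⟩)
        · exact ⟨h4, fun h6 => h5 h6.1⟩
        · exact ⟨h3, fun h6 => h4 h6.2⟩
      · rintro ⟨h3, h4⟩
        by_cases h5 : a ∈ X2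
        · have h6 : a ≠ e := (mem_erase.mp (hX2 h5)).1
          exact Or.inl ⟨⟨h6, h3⟩, fun h7 => h4 ⟨h7, h5⟩⟩
        · exact Or.inr ⟨h3, h5⟩
    have e3 : (S.erase e \ X1) ∩ (S \ X2) = S \ (X1 ∪ insert e X2) := by
      ext a
      simp only [mem_inter, mem_sdiff, mem_erase, mem_union, mem_insert]
      tauto
    rw [e1] at s1
    rw [e2, e3] at s2
    have k1 := H (X1 ∩ X2) ((inter_subset_left.trans hX1).trans (erase_subset _ _))
    have k2 := H (X1 ∪ insert e X2) (union_subset (hX1.trans (erase_subset _ _))
      (insert_subset he (hX2.trans (erase_subset _ _))))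
    omega

end Pool.Agent.Helper10.SPL
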