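import Mathlib
import Pool.Agent.Helper10.SPL.Rank

/-!
Regular sets, direct sum decompositions of rank functions, and the two moves (splitting at a tight
set, and passing to a regular subset after a fractional step).
-/

set_option autoImplicit false

namespace Pool.Agent.Helper10.SPL

open Finset
open Pool.Agent.Helper55.Rota

variable {α : Type} [DecidableEq α]

/-- `S` is covered by `q` independent sets (in the form of Edmonds' condition). -/
def Reg (A : RankFn α) (S : Finset α) (q : ℕ) : Prop := ∀ X ⊆ S, X.card ≤ q * A.r X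

lemma Reg.mono {A : RankFn α} {S S' : Finset α} {q : ℕ} (h : Reg A S q) (hS : S' ⊆ S) :
    Reg A S' q := fun X hX => h X (hX.trans hS)

lemma reg_of_fold {A : RankFn α} {q : ℕ} {I : Finset α} (h : (fold A q).r I = I.card) :
    Reg A I q := by
  intro X hX
  have h1 := fold_le A q hX
  have h2 := card_sdiff_add_card_eq_card hX
  omega

/-- a direct sum decomposition of the rank function on `S`; the pieces are the fibres of `c` -/
structure Dec (A : RankFn α) (S : Finset α) (c : α → ℕ) (N : ℕ) : Prop where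
  lt : ∀ x ∈ S, c x < N
  add : ∀ X ⊆ S, A.r X = ∑ j ∈ range N, A.r (X.filter (fun x => c x = j))

lemma Dec.mono {A : RankFn α} {S S' : Finset α} {c : α → ℕ} {N : ℕ} (h : Dec A S c N)
    (hS : S' ⊆ S) : Dec A S' c N :=
  ⟨fun x hx => h.lt x (hS hx), fun X hX => h.add X (hX.trans hS)⟩

/-- the potential -/
def pot (A : RankFn α) (S : Finset α) (c : α → ℕ) (N : ℕ) : ℕ :=
  ∑ j ∈ range N, (A.r (S.filter (fun x => c x = j)) - 2)

/-- an auxiliary measure -/
def mu (A : RankFn α) (S : Finset α) (c : α → ℕ) (N : ℕ) : ℕ :=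
  ∑ j ∈ range N, (A.r (S.filter (fun x => c x = j))) ^ 2

lemma pot_mono (A : RankFn α) {S S' : Finset α} (hS : S' ⊆ S) (c : α → ℕ) (N : ℕ) :
    pot A S' c N ≤ pot A S c N := by
  apply sum_le_sum
  intro j _
  have h := A.mono (filter_subset_filter (fun x => c x = j) hS)
  omega

omit [DecidableEq α] in
lemma card_fibers {S : Finset α} {c : α → ℕ} {N : ℕ} (hlt : ∀ x ∈ S, c x < N)
    {X : Finset α} (hX : X ⊆ S) :
    X.card = ∑ j ∈ range N, (X.filter (fun x => c x = j)).card :=
  card_eq_sum_card_fiberwise (fun x hx => by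
    simpa using hlt x (hX hx))

lemma Dec.pair {A : RankFn α} {S : Finset α} {c : α → ℕ} {N : ℕ} (h : Dec A S c N)
    {i j : ℕ} (hi : i < N) (hj : j < N) (hij : i ≠ j) {Y Z : Finset α}
    (hY : Y ⊆ S.filter (fun x => c x = i)) (hZ : Z ⊆ S.filter (fun x => c x = j)) :
    A.r (Y ∪ Z) = A.r Y + A.r Z := by
  apply le_antisymm (A.union_le Y Z)
  have hYS : Y ⊆ S := hY.trans (filter_subset _ _)
  have hZS : Z ⊆ S := hZ.trans (filter_subset _ _)
  rw [h.add (Y ∪ Z) (union_subset hYS hZS)]
  have h1 : ({i, j} : Finset ℕ) ⊆ range N := by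
    intro a ha
    rw [mem_insert, mem_singleton] at ha
    rw [mem_range]
    rcases ha with rfl | rfl
    · exact hi
    · exact hj
  refine le_trans ?_ (sum_le_sum_of_subset h1)
  rw [sum_pair hij]
  apply Nat.add_le_add
  · apply A.mono
    intro a ha
    rw [mem_filter]
    exact ⟨mem_union_left _ ha, (mem_filter.mp (hY ha)).2⟩
  · apply A.mono
    intro a ha
    rw [mem_filter]
    exact ⟨mem_union_right _ ha, (mem_filter.mp (hZ ha)).2⟩

/-- the refined labelling -/
def relabel (c : α → ℕ) (F : Finset α) (N : ℕ) (x : α) : ℕ := if x ∈ F then N else c x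

lemma relabel_mem (c : α → ℕ) {F : Finset α} (N : ℕ) {x : α} (h : x ∈ F) :
    relabel c F N x = N := if_pos h

lemma relabel_notMem (c : α → ℕ) {F : Finset α} (N : ℕ) {x : α} (h : x ∉ F) :
    relabel c F N x = c x := if_neg h

section refine

variable {A : RankFn α} {S : Finset α} {c : α → ℕ} {N : ℕ} {j₀ : ℕ} {F : Finset α}

lemma filter_new (h : Dec A S c N) {X : Finset α} (hX : X ⊆ S) :
    X.filter (fun x => relabel c F N x = N) = X ∩ F := by
  ext a
  rw [mem_filter, mem_inter]
  constructor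
  · rintro ⟨h1, h2⟩
    refine ⟨h1, ?_⟩
    by_contra h3
    rw [relabel_notMem c N h3] at h2
    have := h.lt a (hX h1)
    omega
  · rintro ⟨h1, h2⟩
    exact ⟨h1, relabel_mem c N h2⟩

lemma filter_other (hF : F ⊆ S.filter (fun x => c x = j₀)) {j : ℕ} (hj : j < N) (hjj : j ≠ j₀)
    (X : Finset α) :
    X.filter (fun x => relabel c F N x = j) = X.filter (fun x => c x = j) := by
  ext a
  rw [mem_filter, mem_filter]
  constructor
  · rintro ⟨h1, h2⟩
    refine ⟨h1, ?_⟩
    by_cases h3 : a ∈ F
    · rw [relabel_mem c N h3] at h2; omega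
    · rwa [relabel_notMem c N h3] at h2
  · rintro ⟨h1, h2⟩
    refine ⟨h1, ?_⟩
    have h3 : a ∉ F := fun h3 => hjj (h2.symm.trans (mem_filter.mp (hF h3)).2)
    rw [relabel_notMem c N h3]; exact h2

lemma filter_old (hj₀ : j₀ < N) (X : Finset α) :
    X.filter (fun x => relabel c F N x = j₀) = X.filter (fun x => c x = j₀) \ F := by
  ext a
  rw [mem_filter, mem_sdiff, mem_filter]
  constructor
  · rintro ⟨h1, h2⟩
    by_cases h3 : a ∈ F
    · rw [relabel_mem c N h3] at h2; omega
    · rw [relabel_notMem c N h3] at h2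
      exact ⟨⟨h1, h2⟩, h3⟩
  · rintro ⟨⟨h1, h2⟩, h3⟩
    exact ⟨h1, by rw [relabel_notMem c N h3]; exact h2⟩

lemma split_new (X : Finset α) : (split A F).r (X ∩ F) = A.r (X ∩ F) := by
  have h := split_r A F (X ∩ F)
  have e1 : X ∩ F ∩ F = X ∩ F := by
    ext a; simp only [mem_inter]; tauto
  have e2 : X ∩ F ∪ F = F := by
    ext a; simp only [mem_inter, mem_union]; tauto
  rw [e1, e2] at h
  omega

lemma split_other (h : Dec A S c N) (hj₀ : j₀ < N) (hF : F ⊆ S.filter (fun x => c x = j₀))
    {j : ℕ} (hj : j < N) (hjj : j ≠ j₀) {X : Finset α} (hX : X ⊆ S) :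
    (split A F).r (X.filter (fun x => c x = j)) = A.r (X.filter (fun x => c x = j)) := by
  have h1 := split_r A F (X.filter (fun x => c x = j))
  have h2 := h.pair hj hj₀ hjj (filter_subset_filter _ hX) hF
  have e1 : X.filter (fun x => c x = j) ∩ F = ∅ := by
    rw [← disjoint_iff_inter_eq_empty, disjoint_left]
    intro a ha haF
    exact hjj ((mem_filter.mp ha).2.symm.trans (mem_filter.mp (hF haF)).2)
  rw [e1, h2, A.empty] at h1
  omega

lemma split_old (X : Finset α) :
    (split A F).r (X.filter (fun x => c x = j₀) \ F) + A.r F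
      = A.r (X.filter (fun x => c x = j₀) ∪ F) := by
  have h1 := split_r A F (X.filter (fun x => c x = j₀) \ F)
  have e1 : (X.filter (fun x => c x = j₀) \ F) ∩ F = ∅ := by
    ext a; simp only [mem_inter, mem_sdiff, notMem_empty, iff_false]; tauto
  have e2 : (X.filter (fun x => c x = j₀) \ F) ∪ F = X.filter (fun x => c x = j₀) ∪ F := by
    ext a; simp only [mem_union, mem_sdiff]; tauto
  rw [e1, e2, A.empty] at h1
  omega

lemma Dec.refine (h : Dec A S c N) (hj₀ : j₀ < N) (hF : F ⊆ S.filter (fun x => c x = j₀)) :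
    Dec (split A F) S (relabel c F N) (N + 1) := by
  have hFS : F ⊆ S := hF.trans (filter_subset _ _)
  refine ⟨?_, ?_⟩
  · intro x hx
    rw [relabel]
    split_ifs
    · omega
    · have := h.lt x hx; omega
  · intro X hX
    rw [sum_range_succ, filter_new h hX, split_new]
    have h1 := split_r A F X
    have h2 := h.add (X ∪ F) (union_subset hX hFS)
    have h3 : ∑ j ∈ range N, A.r ((X ∪ F).filter (fun x => c x = j))
        = ∑ j ∈ range N, ((split A F).r (X.filter (fun x => relabel c F N x = j))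
            + if j = j₀ then A.r F else 0) := by
      apply sum_congr rfl
      intro j hj
      rw [mem_range] at hj
      by_cases hjj : j = j₀
      · subst hjj
        rw [if_pos rfl, filter_old hj, split_old]
        congr 1
        ext a
        simp only [mem_filter, mem_union]
        constructor
        · rintro ⟨h4 | h4, h5⟩
          · exact Or.inl ⟨h4, h5⟩
          · exact Or.inr h4
        · rintro (⟨h4, h5⟩ | h4)
          · exact ⟨Or.inl h4, h5⟩
          · exact ⟨Or.inr h4, (mem_filter.mp (hF h4)).2⟩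
      · rw [if_neg hjj, filter_other hF hj hjj, split_other h hj₀ hF hj hjj hX, add_zero]
        congr 1
        ext a
        simp only [mem_filter, mem_union]
        constructor
        · rintro ⟨h4 | h4, h5⟩
          · exact ⟨h4, h5⟩
          · exact absurd (h5.symm.trans (mem_filter.mp (hF h4)).2) hjj
        · rintro ⟨h4, h5⟩
          exact ⟨Or.inl h4, h5⟩
    rw [h3, sum_add_distrib, sum_ite_eq' (range N) j₀, if_pos (mem_range.mpr hj₀)] at h2
    omega

/-- values of the refined pieces -/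
lemma refine_values (h : Dec A S c N) (hj₀ : j₀ < N) (hF : F ⊆ S.filter (fun x => c x = j₀))
    (f : ℕ → ℕ) :
    ∃ Q : ℕ, ∑ j ∈ range N, f (A.r (S.filter (fun x => c x = j)))
        = f (A.r (S.filter (fun x => c x = j₀))) + Q ∧
      ∑ j ∈ range (N + 1), f ((split A F).r (S.filter (fun x => relabel c F N x = j)))
        = f (A.r (S.filter (fun x => c x = j₀)) - A.r F) + Q + f (A.r F) := by
  refine ⟨∑ j ∈ (range N).erase j₀, f (A.r (S.filter (fun x => c x = j))), ?_, ?_⟩
  · rw [add_sum_erase (range N) (fun j => f (A.r (S.filter (fun x => c x = j))))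
      (mem_range.mpr hj₀)]
  · rw [sum_range_succ, filter_new h (Subset.refl S), split_new]
    have e1 : S ∩ F = F := inter_eq_right.mpr (hF.trans (filter_subset _ _))
    rw [e1, ← add_sum_erase (range N)
      (fun j => f ((split A F).r (S.filter (fun x => relabel c F N x = j)))) (mem_range.mpr hj₀)]
    congr 2
    · have h1 := split_old (A := A) (c := c) (j₀ := j₀) (F := F) S
      rw [← filter_old hj₀, union_eq_left.mpr hF] at h1
      congr 1
      omega
    · apply sum_congr rfl
      intro j hj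
      rw [mem_erase, mem_range] at hj
      rw [filter_other hF hj.2 hj.1, split_other h hj₀ hF hj.2 hj.1 (Subset.refl S)]

end refine

/-- tight splitting keeps regularity -/
lemma Reg.split {A : RankFn α} {S F : Finset α} {q : ℕ} (h : Reg A S q) (hF : F ⊆ S)
    (ht : F.card = q * A.r F) : Reg (split A F) S q := by
  intro X hX
  have h1 := split_r A F X
  have h2 := h (X ∩ F) (inter_subset_left.trans hX)
  have h3 := h (X ∪ F) (union_subset hX hF)
  have h4 := card_union_add_card_inter X F
  have h5 : q * (Helper10.SPL.split A F).r X + q * A.r F = q * A.r (X ∩ F) + q * A.r (X ∪ F) := by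
    rw [← Nat.mul_add, ← Nat.mul_add, h1]
  omega

/-- sub-sets of independent sets are independent -/
lemma indep_sub (A : RankFn α) {T : Finset α} (hT : A.r T = T.card) {Y : Finset α} (hY : Y ⊆ T) :
    A.r Y = Y.card := by
  apply le_antisymm (A.le_card Y)
  have h1 := A.union_le Y (T \ Y)
  rw [union_sdiff_of_subset hY, hT] at h1
  have h2 := A.le_card (T \ Y)
  have h3 := card_sdiff_add_card_eq_card hY
  omega

/-- the fractional inequality for all subsets, from the one for the subsets of the pieces -/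
lemma frac_ineq {A : RankFn α} {S T : Finset α} {c : α → ℕ} {N q g d : ℕ} (hD : Dec A S c N)
    (hR : Reg A S q) (hTr : A.r T = T.card)
    (hmin : ∀ j < N, ∀ X ⊆ S.filter (fun x => c x = j), (T ∩ X).card < A.r X →
      g * (A.r X - (T ∩ X).card) ≤ (q * A.r X - X.card) * d) :
    ∀ X ⊆ S, (d : ℤ) * X.card - g * (T ∩ X).card ≤ ((d : ℤ) * q - g) * A.r X := by
  have hpiece : ∀ j < N, ∀ X ⊆ S.filter (fun x => c x = j),
      (d : ℤ) * X.card - g * (T ∩ X).card ≤ ((d : ℤ) * q - g) * A.r X := by
    intro j hj X hX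
    have hXS : X ⊆ S := hX.trans (filter_subset _ _)
    have h1 := hR X hXS
    have h2 : (T ∩ X).card ≤ A.r X := by
      rw [← indep_sub A hTr (inter_subset_left : T ∩ X ⊆ T)]
      exact A.mono inter_subset_right
    rcases Nat.lt_or_ge (T ∩ X).card (A.r X) with h3 | h3
    · have h4 := hmin j hj X hX h3
      zify [h2, h1] at h4
      nlinarith
    · have h4 : (T ∩ X).card = A.r X := le_antisymm h2 h3
      rw [h4]
      have h5 : (X.card : ℤ) ≤ q * A.r X := by exact_mod_cast h1
      have h6 : (0 : ℤ) ≤ d := Int.natCast_nonneg d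
      nlinarith
  intro X hX
  have e1 := card_fibers hD.lt hX
  have e2 : (T ∩ X).card = ∑ j ∈ range N, (T ∩ X.filter (fun x => c x = j)).card := by
    rw [card_fibers hD.lt (inter_subset_right.trans hX : T ∩ X ⊆ S)]
    apply sum_congr rfl
    intro j _
    congr 1
    ext a
    simp only [mem_filter, mem_inter]
    tauto
  have e3 := hD.add X hX
  rw [e1, e2, e3]
  push_cast
  rw [mul_sum, mul_sum, mul_sum, ← sum_sub_distrib]
  apply sum_le_sum
  intro j hj
  exact hpiece j (mem_range.mp hj) _ (filter_subset_filter _ hX)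

/-- the fractional inequality after splitting at a tight set -/
lemma frac_split {A : RankFn α} {S T F : Finset α} {q g d : ℕ} (hF : F ⊆ S)
    (h : ∀ X ⊆ S, (d : ℤ) * X.card - g * (T ∩ X).card ≤ ((d : ℤ) * q - g) * A.r X)
    (ht : (d : ℤ) * F.card - g * (T ∩ F).card = ((d : ℤ) * q - g) * A.r F) :
    ∀ X ⊆ S, (d : ℤ) * X.card - g * (T ∩ X).card ≤ ((d : ℤ) * q - g) * (split A F).r X := by
  intro X hX
  have h1 := split_r A F X
  have h2 := h (X ∩ F) (inter_subset_left.trans hX)
  have h3 := h (X ∪ F) (union_subset hX hF)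
  have h4 := card_union_add_card_inter X F
  have h5 : (T ∩ (X ∪ F)).card + (T ∩ (X ∩ F)).card = (T ∩ X).card + (T ∩ F).card := by
    have h6 := card_union_add_card_inter (T ∩ X) (T ∩ F)
    rw [← h6]
    congr 2
    · ext a; simp only [mem_inter, mem_union]; tauto
    · ext a; simp only [mem_inter]; tauto
  have h1' : ((split A F).r X : ℤ) = A.r (X ∩ F) + A.r (X ∪ F) - A.r F := by
    have : (((split A F).r X + A.r F : ℕ) : ℤ) = ((A.r (X ∩ F) + A.r (X ∪ F) : ℕ) : ℤ) := by
      rw [h1]
    push_cast at this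
    linarith
  have h4' : ((X ∪ F).card : ℤ) + (X ∩ F).card = X.card + F.card := by exact_mod_cast h4
  have h5' : ((T ∩ (X ∪ F)).card : ℤ) + (T ∩ (X ∩ F)).card = (T ∩ X).card + (T ∩ F).card := by
    exact_mod_cast h5
  rw [h1']
  have h6 : ((d : ℤ) * q - g) * (A.r (X ∩ F) + A.r (X ∪ F) - A.r F)
      = ((d : ℤ) * q - g) * A.r (X ∩ F) + ((d : ℤ) * q - g) * A.r (X ∪ F)
        - ((d : ℤ) * q - g) * A.r F := by ring
  rw [h6, ← ht]
  have h7 : (d : ℤ) * X.card - g * (T ∩ X).card
      = (d : ℤ) * ((X ∪ F).card + (X ∩ F).card - F.card)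
        - g * ((T ∩ (X ∪ F)).card + (T ∩ (X ∩ F)).card - (T ∩ F).card) := by
    rw [h4', h5']; ring
  rw [h7]
  have h8 : (d : ℤ) * ((X ∪ F).card + (X ∩ F).card - F.card)
        - g * ((T ∩ (X ∪ F)).card + (T ∩ (X ∩ F)).card - (T ∩ F).card)
      = ((d : ℤ) * (X ∩ F).card - g * (T ∩ (X ∩ F)).card)
        + ((d : ℤ) * (X ∪ F).card - g * (T ∩ (X ∪ F)).card)
        - ((d : ℤ) * F.card - g * (T ∩ F).card) := by ring
  rw [h8]
  linarith

/-- the arithmetic of the integrality step -/
lemma reint_arith {d g q n s w x t : ℤ} (hd : 0 < d) (hgd : g ≤ d) (hg : 0 ≤ g) (hq : 0 ≤ q)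
    (hw : 0 ≤ w) (hx : x + w = (q + 1) * n) (ht : t ≤ n) (hs : q * s + w < q * n)
    (h : d * x - g * t ≤ (d * (q + 1) - g) * s) : False := by
  have h1 : x = (q + 1) * n - w := by linarith
  subst h1
  have h2 : d * ((q + 1) * n - w) - g * n ≤ (d * (q + 1) - g) * s := by
    have := mul_le_mul_of_nonneg_left ht hg
    linarith
  have h3 : (d * (q + 1) - g) * (n - s) ≤ d * w := by
    have e1 : (d * (q + 1) - g) * (n - s)
      = (d * ((q + 1) * n - w) - g * n) + d * w - (d * (q + 1) - g) * s := by ring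
    rw [e1]; linarith
  have h4 : w < q * (n - s) := by
    have e1 : q * (n - s) = q * n - q * s := by ring
    rw [e1]; linarith
  have h5 : 0 < n - s := by
    by_contra h
    push Not at h
    have := mul_nonpos_of_nonneg_of_nonpos hq h
    linarith
  have h6 : d * q * (n - s) ≤ (d * (q + 1) - g) * (n - s) := by
    apply mul_le_mul_of_nonneg_right _ h5.le
    have e1 : d * (q + 1) - g = d * q + (d - g) := by ring
    rw [e1]; linarith
  have h7 : d * w < d * (q * (n - s)) := mul_lt_mul_of_pos_left h4 hd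
  have e2 : d * (q * (n - s)) = d * q * (n - s) := by ring
  rw [e2] at h7
  linarith

/-- passing to an integral regular subset -/
lemma reint {A B : RankFn α} {S T : Finset α} {q n g d : ℕ} (hS : S.card = (q + 1) * n)
    (hTc : T.card = n) (hd : 0 < d) (hgd : g ≤ d)
    (hA : ∀ X ⊆ S, (d : ℤ) * X.card - g * (T ∩ X).card ≤ ((d : ℤ) * (q + 1) - g) * A.r X)
    (hB : ∀ X ⊆ S, (d : ℤ) * X.card - g * (T ∩ X).card ≤ ((d : ℤ) * (q + 1) - g) * B.r X) :
    ∃ S' ⊆ S, S'.card = q * n ∧ Reg A S' q ∧ Reg B S' q := by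
  have key : ∀ Y ⊆ S, q * n ≤ (fold A q).r Y + (fold B q).r (S \ Y) := by
    intro Y hY
    obtain ⟨X1, hX1, e1⟩ := fold_exists A q Y
    obtain ⟨X2, hX2, e2⟩ := fold_exists B q (S \ Y)
    rw [e1, e2]
    have a1 := hA X1 (hX1.trans hY)
    have a2 := hB X2 (hX2.trans sdiff_subset)
    have c1 := card_sdiff_add_card_eq_card hX1
    have c2 := card_sdiff_add_card_eq_card hX2
    have c3 := card_sdiff_add_card_eq_card hY
    have t1 : (T ∩ X1).card + (T ∩ X2).card ≤ n := by
      rw [← hTc, ← card_union_of_disjoint]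
      · exact card_le_card (union_subset inter_subset_left inter_subset_left)
      · rw [disjoint_left]
        intro a ha hb
        exact (mem_sdiff.mp (hX2 (mem_inter.mp hb).2)).2 (hX1 (mem_inter.mp ha).2)
    by_contra hcon
    push Not at hcon
    have k1 : X1.card + X2.card + ((Y \ X1).card + ((S \ Y) \ X2).card) = (q + 1) * n := by
      omega
    refine reint_arith (d := d) (g := g) (q := q) (n := n) (s := (A.r X1 : ℤ) + B.r X2)
      (w := ((Y \ X1).card : ℤ) + ((S \ Y) \ X2).card) (x := (X1.card : ℤ) + X2.card)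
      (t := ((T ∩ X1).card : ℤ) + (T ∩ X2).card) ?_ ?_ ?_ ?_ ?_ ?_ ?_ ?_ ?_
    · exact_mod_cast hd
    · exact_mod_cast hgd
    · exact Int.natCast_nonneg g
    · exact Int.natCast_nonneg q
    · positivity
    · exact_mod_cast k1
    · exact_mod_cast t1
    · have : q * (A.r X1 + B.r X2) + ((Y \ X1).card + ((S \ Y) \ X2).card) < q * n := by
        rw [Nat.mul_add]; omega
      exact_mod_cast this
    · have e3 : (d : ℤ) * ((X1.card : ℤ) + X2.card) - g * (((T ∩ X1).card : ℤ) + (T ∩ X2).card)
          = ((d : ℤ) * X1.card - g * (T ∩ X1).card)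
            + ((d : ℤ) * X2.card - g * (T ∩ X2).card) := by ring
      have e4 : ((d : ℤ) * (q + 1) - g) * ((A.r X1 : ℤ) + B.r X2)
          = ((d : ℤ) * (q + 1) - g) * A.r X1 + ((d : ℤ) * (q + 1) - g) * B.r X2 := by ring
      rw [e3, e4]
      exact add_le_add a1 a2
  obtain ⟨I, hI, hI1, hI2, hI3⟩ := inter_thm S.card (fold A q) (fold B q) S (q * n) rfl key
  exact ⟨I, hI, hI1, reg_of_fold (by rw [hI2, hI1]), reg_of_fold (by rw [hI3, hI1])⟩

end Pool.Agent.Helper10.SPL
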