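import Mathlib
import Pool.Agent.Helper10.SPL.State

/-!
The induction: exact packing by splitting at cost one.
-/

set_option autoImplicit false

namespace Pool.Agent.Helper10.SPL

open Finset
open Pool.Agent.Helper55.Rota

variable {α : Type} [DecidableEq α]

/-- a state of the induction -/
structure St (n q : ℕ) (A B : RankFn α) (S : Finset α) (c c' : α → ℕ) (N N' : ℕ) : Prop where
  decA : Dec A S c N
  decB : Dec B S c' N'
  regA : Reg A S q
  regB : Reg B S q
  card : S.card = q * n
  leA : A.r S ≤ n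
  leB : B.r S ≤ n

/-- at least `q - p` disjoint common bases inside `S` -/
def Good (n q : ℕ) (A B : RankFn α) (S : Finset α) (p : ℕ) : Prop :=
  ∃ 𝒯 : Finset (Finset α), (∀ T ∈ 𝒯, T ⊆ S ∧ T.card = n ∧ A.r T = n ∧ B.r T = n) ∧
    (∀ T ∈ 𝒯, ∀ T' ∈ 𝒯, T ≠ T' → Disjoint T T') ∧ q ≤ 𝒯.card + p

lemma St.symm {n q : ℕ} {A B : RankFn α} {S : Finset α} {c c' : α → ℕ} {N N' : ℕ}
    (h : St n q A B S c c' N N') : St n q B A S c' c N' N :=
  ⟨h.decB, h.decA, h.regB, h.regA, h.card, h.leB, h.leA⟩

lemma Good.symm {n q : ℕ} {A B : RankFn α} {S : Finset α} {p : ℕ}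
    (h : Good n q A B S p) : Good n q B A S p := by
  obtain ⟨𝒯, h1, h2, h3⟩ := h
  exact ⟨𝒯, fun T hT => ⟨(h1 T hT).1, (h1 T hT).2.1, (h1 T hT).2.2.2, (h1 T hT).2.2.1⟩, h2, h3⟩

/-- common bases for a split function are common bases -/
lemma Good.of_split {n q : ℕ} {A B : RankFn α} {S F : Finset α} {p : ℕ}
    (h : Good n q (split A F) B S p) : Good n q A B S p := by
  obtain ⟨𝒯, h1, h2, h3⟩ := h
  refine ⟨𝒯, fun T hT => ?_, h2, h3⟩
  obtain ⟨a, b, c, d⟩ := h1 T hT
  refine ⟨a, b, ?_, d⟩
  have h4 := split_le A F T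
  have h5 := A.le_card T
  omega

lemma Good.mono {n q q' : ℕ} {A B : RankFn α} {S S' : Finset α} {p p' : ℕ}
    (h : Good n q A B S p) (hS : S ⊆ S') (hp : q' + p ≤ q + p') : Good n q' A B S' p' := by
  obtain ⟨𝒯, h1, h2, h3⟩ := h
  exact ⟨𝒯, fun T hT => ⟨(h1 T hT).1.trans hS, (h1 T hT).2⟩, h2, by omega⟩

section

variable {n q : ℕ} {A B : RankFn α} {S T : Finset α} {c c' : α → ℕ} {N N' : ℕ}

/-- there is a common basis -/
lemma St.basis (h : St n (q + 1) A B S c c' N N') :
    ∃ T ⊆ S, T.card = n ∧ A.r T = n ∧ B.r T = n := by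
  refine inter_thm S.card A B S n rfl ?_
  intro X hX
  have h1 := h.regA X hX
  have h2 := h.regB (S \ X) sdiff_subset
  have h3 := card_sdiff_add_card_eq_card hX
  have h4 := h.card
  have h5 : (q + 1) * n ≤ (q + 1) * (A.r X + B.r (S \ X)) := by
    rw [Nat.mul_add]; omega
  exact Nat.le_of_mul_le_mul_left h5 (Nat.succ_pos q)

lemma St.rank_eq (h : St n (q + 1) A B S c c' N N') : A.r S = n := by
  have h1 := h.regA S (Subset.refl S)
  rw [h.card] at h1
  exact le_antisymm h.leA (Nat.le_of_mul_le_mul_left h1 (Nat.succ_pos q))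

lemma sum_eq_of_le {s : Finset ℕ} {f g : ℕ → ℕ} (h : ∀ i ∈ s, f i ≤ g i)
    (hs : ∑ i ∈ s, g i ≤ ∑ i ∈ s, f i) : ∀ i ∈ s, f i = g i :=
  (sum_eq_sum_iff_of_le h).mp (le_antisymm (sum_le_sum h) hs)

/-- the pieces are tight -/
lemma St.piece (h : St n (q + 1) A B S c c' N N') {j : ℕ} (hj : j < N) :
    (S.filter (fun x => c x = j)).card = (q + 1) * A.r (S.filter (fun x => c x = j)) := by
  refine sum_eq_of_le (s := range N) (f := fun j => (S.filter (fun x => c x = j)).card)
    (g := fun j => (q + 1) * A.r (S.filter (fun x => c x = j))) ?_ ?_ j (mem_range.mpr hj)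
  · intro i _
    exact h.regA _ (filter_subset _ _)
  · rw [← mul_sum, ← h.decA.add S (Subset.refl S), h.rank_eq,
      ← card_fibers h.decA.lt (Subset.refl S), h.card]

/-- a basis is spanning on every piece -/
lemma St.basis_piece (h : St n (q + 1) A B S c c' N N') (hT : T ⊆ S) (hTc : T.card = n)
    (hTr : A.r T = n) {j : ℕ} (hj : j < N) :
    (T ∩ S.filter (fun x => c x = j)).card = A.r (S.filter (fun x => c x = j)) := by
  refine sum_eq_of_le (s := range N) (f := fun j => (T ∩ S.filter (fun x => c x = j)).card)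
    (g := fun j => A.r (S.filter (fun x => c x = j))) ?_ ?_ j (mem_range.mpr hj)
  · intro i _
    rw [← indep_sub A (hTr.trans hTc.symm) (inter_subset_left :
      T ∩ S.filter (fun x => c x = i) ⊆ T)]
    exact A.mono inter_subset_right
  · rw [← h.decA.add S (Subset.refl S), h.rank_eq]
    have h1 : T.card = ∑ j ∈ range N, (T ∩ S.filter (fun x => c x = j)).card := by
      rw [card_fibers h.decA.lt hT]
      apply sum_congr rfl
      intro i _
      congr 1
      ext a
      rw [mem_filter, mem_inter, mem_filter]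
      constructor
      · rintro ⟨h1, h2⟩
        exact ⟨h1, hT h1, h2⟩
      · rintro ⟨h1, _, h2⟩
        exact ⟨h1, h2⟩
    rw [← h1, hTc]

/-- a minimiser on one side -/
lemma exists_min (A : RankFn α) (S T : Finset α) (c : α → ℕ) (N q : ℕ)
    (hne : ∃ j < N, ∃ X ⊆ S.filter (fun x => c x = j), (T ∩ X).card < A.r X) :
    ∃ j < N, ∃ F ⊆ S.filter (fun x => c x = j), (T ∩ F).card < A.r F ∧
      ∀ i < N, ∀ X ⊆ S.filter (fun x => c x = i), (T ∩ X).card < A.r X →
        (q * A.r F - F.card) * (A.r X - (T ∩ X).card)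
          ≤ (q * A.r X - X.card) * (A.r F - (T ∩ F).card) := by
  classical
  let Ω : Finset (Finset α) := S.powerset.filter (fun X => (T ∩ X).card < A.r X ∧
    ∃ j < N, X ⊆ S.filter (fun x => c x = j))
  have hΩ : Ω.Nonempty := by
    obtain ⟨j, hj, X, hX, h⟩ := hne
    exact ⟨X, mem_filter.mpr ⟨mem_powerset.mpr (hX.trans (filter_subset _ _)), h, j, hj, hX⟩⟩
  obtain ⟨F, hF, hmin⟩ := exists_min_image Ω
    (fun X => ((q * A.r X - X.card : ℕ) : ℚ) / ((A.r X - (T ∩ X).card : ℕ) : ℚ)) hΩ
  obtain ⟨hF1, hF2, j, hj, hF3⟩ := mem_filter.mp hF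
  refine ⟨j, hj, F, hF3, hF2, ?_⟩
  intro i hi X hX hXT
  have h1 := hmin X (mem_filter.mpr ⟨mem_powerset.mpr (hX.trans (filter_subset _ _)), hXT, i, hi,
    hX⟩)
  have p1 : (0 : ℚ) < ((A.r X - (T ∩ X).card : ℕ) : ℚ) := by
    exact_mod_cast Nat.sub_pos_of_lt hXT
  have p2 : (0 : ℚ) < ((A.r F - (T ∩ F).card : ℕ) : ℚ) := by
    exact_mod_cast Nat.sub_pos_of_lt hF2
  rw [div_le_div_iff₀ p2 p1] at h1
  exact_mod_cast h1

/-- step (0): splitting at a tight set lowers the measure and does not raise the potential -/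
lemma St.split0 (h : St n (q + 1) A B S c c' N N') {j : ℕ} (hj : j < N) {F : Finset α}
    (hF : F ⊆ S.filter (fun x => c x = j)) (h0 : 0 < A.r F)
    (h1 : A.r F < A.r (S.filter (fun x => c x = j))) (ht : F.card = (q + 1) * A.r F) :
    St n (q + 1) (split A F) B S (relabel c F N) c' (N + 1) N' ∧
      mu (split A F) S (relabel c F N) (N + 1) < mu A S c N ∧
      pot (split A F) S (relabel c F N) (N + 1) ≤ pot A S c N := by
  have hFS : F ⊆ S := hF.trans (filter_subset _ _)
  refine ⟨⟨h.decA.refine hj hF, h.decB, h.regA.split hFS ht, h.regB, h.card,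
    (split_le A F S).trans h.leA, h.leB⟩, ?_, ?_⟩
  · obtain ⟨Q, e1, e2⟩ := refine_values h.decA hj hF (fun x => x ^ 2)
    unfold mu
    rw [e1, e2]
    obtain ⟨b, hb⟩ := Nat.exists_eq_add_of_lt h1
    rw [hb]
    have : A.r F + b + 1 - A.r F = b + 1 := by omega
    rw [this]
    nlinarith
  · obtain ⟨Q, e1, e2⟩ := refine_values h.decA hj hF (fun x => x - 2)
    unfold pot
    rw [e1, e2]
    omega

/-- step (2) -/
lemma St.step2 (h : St n (q + 1) A B S c c' N N') (hT : T ⊆ S) (hTc : T.card = n)
    (hTA : A.r T = n) (hTB : B.r T = n)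
    (hno : ∀ j < N, ∀ F ⊆ S.filter (fun x => c x = j), 0 < A.r F →
      A.r F < A.r (S.filter (fun x => c x = j)) → F.card ≠ (q + 1) * A.r F)
    {j : ℕ} (hj : j < N) {F : Finset α} (hF : F ⊆ S.filter (fun x => c x = j))
    (hFT : (T ∩ F).card < A.r F)
    (hlt : (q + 1) * A.r F - F.card < A.r F - (T ∩ F).card)
    (hminA : ∀ i < N, ∀ X ⊆ S.filter (fun x => c x = i), (T ∩ X).card < A.r X →
        ((q + 1) * A.r F - F.card) * (A.r X - (T ∩ X).card)
          ≤ ((q + 1) * A.r X - X.card) * (A.r F - (T ∩ F).card))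
    (hminB : ∀ i < N', ∀ X ⊆ S.filter (fun x => c' x = i), (T ∩ X).card < B.r X →
        ((q + 1) * A.r F - F.card) * (B.r X - (T ∩ X).card)
          ≤ ((q + 1) * B.r X - X.card) * (A.r F - (T ∩ F).card)) :
    ∃ S' ⊆ S, St n q (split A F) B S' (relabel c F N) c' (N + 1) N' ∧
      pot (split A F) S (relabel c F N) (N + 1) + 1 ≤ pot A S c N := by
  have hFS : F ⊆ S := hF.trans (filter_subset _ _)
  -- `F` is not spanning its piece
  have hns : A.r F < A.r (S.filter (fun x => c x = j)) := by
    rcases Nat.lt_or_ge (A.r F) (A.r (S.filter (fun x => c x = j))) with h1 | h1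
    · exact h1
    · exfalso
      have h2 : A.r F = A.r (S.filter (fun x => c x = j)) := le_antisymm (A.mono hF) h1
      have h3 := h.piece hj
      have h4 := h.basis_piece hT hTc hTA hj
      have h5 : (T ∩ S.filter (fun x => c x = j)).card
          ≤ (T ∩ F).card + (S.filter (fun x => c x = j) \ F).card := by
        refine le_trans (card_le_card ?_) (card_union_le _ _)
        intro a ha
        rw [mem_inter] at ha
        rw [mem_union, mem_inter, mem_sdiff]
        by_cases haF : a ∈ F
        · exact Or.inl ⟨ha.1, haF⟩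
        · exact Or.inr ⟨ha.2, haF⟩
      have h6 := card_sdiff_add_card_eq_card hF
      rw [← h2] at h3 h4
      omega
  have hg : 0 < (q + 1) * A.r F - F.card := by
    have h1 := h.regA F hFS
    have h2 := hno j hj F hF (by omega) hns
    omega
  have ha : 2 ≤ A.r F := by omega
  have hregF := h.regA F hFS
  generalize hgd : (q + 1) * A.r F - F.card = g at *
  generalize hdd : A.r F - (T ∩ F).card = d at *
  have hfA := frac_ineq (g := g) (d := d) h.decA h.regA (hTA.trans hTc.symm) hminA
  have hfB := frac_ineq (g := g) (d := d) h.decB h.regB (hTB.trans hTc.symm) hminB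
  have hg' : (g : ℤ) = ((q : ℤ) + 1) * A.r F - F.card := by
    have : g + F.card = (q + 1) * A.r F := by omega
    have h2 : ((g + F.card : ℕ) : ℤ) = (((q + 1) * A.r F : ℕ) : ℤ) := by rw [this]
    push_cast at h2
    linarith
  have hd' : (d : ℤ) = A.r F - (T ∩ F).card := by
    have : d + (T ∩ F).card = A.r F := by omega
    have h2 : ((d + (T ∩ F).card : ℕ) : ℤ) = ((A.r F : ℕ) : ℤ) := by rw [this]
    push_cast at h2
    linarith
  have htight : (d : ℤ) * F.card - g * (T ∩ F).card
      = ((d : ℤ) * ((q + 1 : ℕ) : ℤ) - g) * A.r F := by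
    rw [hg', hd']
    push_cast
    ring
  have hfA' := frac_split hFS hfA htight
  obtain ⟨S', hS', hc', hr1, hr2⟩ := reint (A := split A F) (B := B) (S := S) (T := T) (q := q)
    (n := n) (g := g) (d := d) h.card hTc (by omega) (by omega)
    (by intro X hX; have := hfA' X hX; push_cast at this; exact this)
    (by intro X hX; have := hfB X hX; push_cast at this; exact this)
  refine ⟨S', hS', ⟨(h.decA.refine hj hF).mono hS', h.decB.mono hS', hr1, hr2, hc',
    ((split A F).mono hS').trans ((split_le A F S).trans h.leA), (B.mono hS').trans h.leB⟩, ?_⟩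
  obtain ⟨Q, e1, e2⟩ := refine_values h.decA hj hF (fun x => x - 2)
  unfold pot
  rw [e1, e2]
  omega

/-- if removing `T` is bad for `A` then a piece contains a set of ratio less than one -/
lemma bad_piece (hD : Dec A S c N) (hR : Reg A S (q + 1)) (hbad : ¬ Reg A (S \ T) q) :
    ∃ j < N, ∃ X ⊆ S.filter (fun x => c x = j), (T ∩ X).card < A.r X ∧
      (q + 1) * A.r X - X.card < A.r X - (T ∩ X).card := by
  unfold Reg at hbad
  push Not at hbad
  obtain ⟨X, hX, h1⟩ := hbad
  have hXS : X ⊆ S := hX.trans sdiff_subset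
  by_contra hcon
  push Not at hcon
  have h2 : X.card ≤ q * A.r X := by
    rw [hD.add X hXS, card_fibers hD.lt hXS, mul_sum]
    apply sum_le_sum
    intro j hj
    by_contra h3
    push Not at h3
    have h4 : T ∩ X.filter (fun x => c x = j) = ∅ := by
      rw [← disjoint_iff_inter_eq_empty, disjoint_left]
      intro a ha hb
      exact (mem_sdiff.mp (hX (mem_filter.mp hb).1)).2 ha
    have h5 := hcon j (mem_range.mp hj) (X.filter (fun x => c x = j))
      (filter_subset_filter _ hXS)
    rw [h4, card_empty] at h5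
    have h6 : 0 < A.r (X.filter (fun x => c x = j)) := by
      have h9 := hR (X.filter (fun x => c x = j)) ((filter_subset _ _).trans hXS)
      by_contra h10
      have h11 : A.r (X.filter (fun x => c x = j)) = 0 := by omega
      rw [h11, Nat.mul_zero] at h9 h3
      omega
    have h7 := h5 h6
    have h8 : (q + 1) * A.r (X.filter (fun x => c x = j))
      = q * A.r (X.filter (fun x => c x = j)) + A.r (X.filter (fun x => c x = j)) := by ring
    omega
  omega

/-- cross multiplication -/
lemma cross {g d g' d' x y : ℕ} (hd' : 0 < d') (h1 : g * d' ≤ g' * d) (h2 : g' * x ≤ y * d') :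
    g * x ≤ y * d := by
  have h3 : (g * x) * d' ≤ (y * d) * d' := by
    calc (g * x) * d' = (g * d') * x := by ring
      _ ≤ (g' * d) * x := Nat.mul_le_mul_right _ h1
      _ = (g' * x) * d := by ring
      _ ≤ (y * d') * d := Nat.mul_le_mul_right _ h2
      _ = (y * d) * d' := by ring
  exact Nat.le_of_mul_le_mul_right h3 hd'

/-- the statement proved by induction -/
def Claim (α : Type) [DecidableEq α] (n q m : ℕ) : Prop :=
  ∀ (A B : RankFn α) (S : Finset α) (c c' : α → ℕ) (N N' : ℕ),
    St n q A B S c c' N N' → mu A S c N + mu B S c' N' = m →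
      Good n q A B S (pot A S c N + pot B S c' N')

lemma lt_of_ratio {g d x y : ℕ} (hxy : y < x) (hd : 0 < d) (h : g * x ≤ y * d) : g < d := by
  have h1 : y * d < x * d := Nat.mul_lt_mul_of_pos_right hxy hd
  have h2 : g * x < d * x := by
    calc g * x ≤ y * d := h
      _ < x * d := h1
      _ = d * x := by ring
  exact Nat.lt_of_mul_lt_mul_right h2

/-- step (2) when the minimiser is on the first side -/
lemma St.side (hq : ∀ m, Claim α n q m)
    (h : St n (q + 1) A B S c c' N N') (hT : T ⊆ S) (hTc : T.card = n)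
    (hTA : A.r T = n) (hTB : B.r T = n)
    (hno : ∀ j < N, ∀ F ⊆ S.filter (fun x => c x = j), 0 < A.r F →
      A.r F < A.r (S.filter (fun x => c x = j)) → F.card ≠ (q + 1) * A.r F)
    (hbad : (∃ j < N, ∃ X ⊆ S.filter (fun x => c x = j), (T ∩ X).card < A.r X ∧
              (q + 1) * A.r X - X.card < A.r X - (T ∩ X).card) ∨
            (∃ j < N', ∃ X ⊆ S.filter (fun x => c' x = j), (T ∩ X).card < B.r X ∧
              (q + 1) * B.r X - X.card < B.r X - (T ∩ X).card))
    {j : ℕ} (hj : j < N) {F : Finset α} (hF : F ⊆ S.filter (fun x => c x = j))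
    (hFT : (T ∩ F).card < A.r F)
    (hminA : ∀ i < N, ∀ X ⊆ S.filter (fun x => c x = i), (T ∩ X).card < A.r X →
        ((q + 1) * A.r F - F.card) * (A.r X - (T ∩ X).card)
          ≤ ((q + 1) * A.r X - X.card) * (A.r F - (T ∩ F).card))
    (hminB : ∀ i < N', ∀ X ⊆ S.filter (fun x => c' x = i), (T ∩ X).card < B.r X →
        ((q + 1) * A.r F - F.card) * (B.r X - (T ∩ X).card)
          ≤ ((q + 1) * B.r X - X.card) * (A.r F - (T ∩ F).card)) :
    Good n (q + 1) A B S (pot A S c N + pot B S c' N') := by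
  have hd : 0 < A.r F - (T ∩ F).card := by omega
  have hlt : (q + 1) * A.r F - F.card < A.r F - (T ∩ F).card := by
    rcases hbad with ⟨i, hi, X, hX, hXT, hX1⟩ | ⟨i, hi, X, hX, hXT, hX1⟩
    · exact lt_of_ratio hX1 hd (hminA i hi X hX hXT)
    · exact lt_of_ratio hX1 hd (hminB i hi X hX hXT)
  obtain ⟨S', hS', hst, hpot⟩ := h.step2 hT hTc hTA hTB hno hj hF hFT hlt hminA hminB
  have h1 := hq _ (split A F) B S' (relabel c F N) c' (N + 1) N' hst rfl
  refine h1.of_split.mono hS' ?_
  have h2 := pot_mono (split A F) hS' (relabel c F N) (N + 1)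
  have h3 := pot_mono B hS' c' N'
  omega

/-- the induction -/
theorem claim (hn : 0 < n) : ∀ q m, Claim α n q m := by
  intro q
  induction q with
  | zero =>
    intro m A B S c c' N N' h hm
    exact ⟨∅, by simp, by simp, by omega⟩
  | succ q ih =>
    intro m
    induction m using Nat.strong_induction_on with
    | _ m ihm =>
      intro A B S c c' N N' h hm
      by_cases hA0 : ∃ j < N, ∃ F ⊆ S.filter (fun x => c x = j), 0 < A.r F ∧
        A.r F < A.r (S.filter (fun x => c x = j)) ∧ F.card = (q + 1) * A.r F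
      · obtain ⟨j, hj, F, hF, h0, h1, ht⟩ := hA0
        obtain ⟨hst, hmu, hpot⟩ := h.split0 hj hF h0 h1 ht
        have h2 := ihm _ (by omega) (split A F) B S (relabel c F N) c' (N + 1) N' hst rfl
        exact h2.of_split.mono (Subset.refl S) (by omega)
      by_cases hB0 : ∃ j < N', ∃ F ⊆ S.filter (fun x => c' x = j), 0 < B.r F ∧
        B.r F < B.r (S.filter (fun x => c' x = j)) ∧ F.card = (q + 1) * B.r F
      · obtain ⟨j, hj, F, hF, h0, h1, ht⟩ := hB0
        obtain ⟨hst, hmu, hpot⟩ := h.symm.split0 hj hF h0 h1 ht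
        have h2 := ihm _ (by omega) (split B F) A S (relabel c' F N') c (N' + 1) N hst rfl
        exact h2.of_split.symm.mono (Subset.refl S) (by omega)
      have hnoA : ∀ j < N, ∀ F ⊆ S.filter (fun x => c x = j), 0 < A.r F →
          A.r F < A.r (S.filter (fun x => c x = j)) → F.card ≠ (q + 1) * A.r F :=
        fun j hj F hF h0 h1 h2 => hA0 ⟨j, hj, F, hF, h0, h1, h2⟩
      have hnoB : ∀ j < N', ∀ F ⊆ S.filter (fun x => c' x = j), 0 < B.r F →
          B.r F < B.r (S.filter (fun x => c' x = j)) → F.card ≠ (q + 1) * B.r F :=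
        fun j hj F hF h0 h1 h2 => hB0 ⟨j, hj, F, hF, h0, h1, h2⟩
      obtain ⟨T, hT, hTc, hTA, hTB⟩ := h.basis
      by_cases hgood : Reg A (S \ T) q ∧ Reg B (S \ T) q
      · have hcard : (S \ T).card = q * n := by
          have h1 := card_sdiff_add_card_eq_card hT
          have h2 := h.card
          have h3 : (q + 1) * n = q * n + n := by ring
          omega
        have hst : St n q A B (S \ T) c c' N N' :=
          ⟨h.decA.mono sdiff_subset, h.decB.mono sdiff_subset, hgood.1, hgood.2, hcard,
            (A.mono sdiff_subset).trans h.leA, (B.mono sdiff_subset).trans h.leB⟩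
        obtain ⟨𝒯, h1, h2, h3⟩ := ih _ A B (S \ T) c c' N N' hst rfl
        have hnot : T ∉ 𝒯 := by
          intro hmem
          have h4 := (h1 T hmem).1
          have h5 : T = ∅ := by
            rw [← subset_empty]
            intro a ha
            exact absurd ha (mem_sdiff.mp (h4 ha)).2
          rw [h5, card_empty] at hTc
          omega
        have hdis : ∀ T' ∈ 𝒯, Disjoint T T' := by
          intro T' hT'
          rw [disjoint_left]
          intro a ha hb
          exact (mem_sdiff.mp ((h1 T' hT').1 hb)).2 ha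
        refine ⟨insert T 𝒯, ?_, ?_, ?_⟩
        · intro U hU
          rcases mem_insert.mp hU with rfl | hU
          · exact ⟨hT, hTc, hTA, hTB⟩
          · exact ⟨(h1 U hU).1.trans sdiff_subset, (h1 U hU).2⟩
        · intro U hU V hV hUV
          rcases mem_insert.mp hU with hU1 | hU1
          · rcases mem_insert.mp hV with hV1 | hV1
            · exact absurd (hU1.trans hV1.symm) hUV
            · rw [hU1]; exact hdis V hV1
          · rcases mem_insert.mp hV with hV1 | hV1
            · rw [hV1]; exact (hdis U hU1).symm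
            · exact h2 U hU1 V hV1 hUV
        · rw [card_insert_of_notMem hnot]
          have h4 := pot_mono A (sdiff_subset : S \ T ⊆ S) c N
          have h5 := pot_mono B (sdiff_subset : S \ T ⊆ S) c' N'
          omega
      · -- there is a bad piece on one of the sides
        have hbad : (∃ j < N, ∃ X ⊆ S.filter (fun x => c x = j), (T ∩ X).card < A.r X ∧
              (q + 1) * A.r X - X.card < A.r X - (T ∩ X).card) ∨
            (∃ j < N', ∃ X ⊆ S.filter (fun x => c' x = j), (T ∩ X).card < B.r X ∧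
              (q + 1) * B.r X - X.card < B.r X - (T ∩ X).card) := by
          rw [not_and_or] at hgood
          rcases hgood with h1 | h1
          · exact Or.inl (bad_piece h.decA h.regA h1)
          · exact Or.inr (bad_piece h.decB h.regB h1)
        by_cases hneA : ∃ j < N, ∃ X ⊆ S.filter (fun x => c x = j), (T ∩ X).card < A.r X
        · obtain ⟨jA, hjA, FA, hFA, hFAT, hminA⟩ := exists_min A S T c N (q + 1) hneA
          have pA : 0 < A.r FA - (T ∩ FA).card := by omega
          by_cases hneB : ∃ j < N', ∃ X ⊆ S.filter (fun x => c' x = j), (T ∩ X).card < B.r X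
          · obtain ⟨jB, hjB, FB, hFB, hFBT, hminB⟩ := exists_min B S T c' N' (q + 1) hneB
            have pB : 0 < B.r FB - (T ∩ FB).card := by omega
            rcases le_total (((q + 1) * A.r FA - FA.card) * (B.r FB - (T ∩ FB).card))
              (((q + 1) * B.r FB - FB.card) * (A.r FA - (T ∩ FA).card)) with hle | hle
            · exact h.side ih hT hTc hTA hTB hnoA hbad hjA hFA hFAT hminA
                (fun i hi X hX hXT => cross pB hle (hminB i hi X hX hXT))
            · have h1 := h.symm.side ih hT hTc hTB hTA hnoB hbad.symm hjB hFB hFBT hminB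
                (fun i hi X hX hXT => cross pA hle (hminA i hi X hX hXT))
              exact h1.symm.mono (Subset.refl S) (by omega)
          · exact h.side ih hT hTc hTA hTB hnoA hbad hjA hFA hFAT hminA
              (fun i hi X hX hXT => absurd ⟨i, hi, X, hX, hXT⟩ hneB)
        · obtain ⟨i, hi, X, hX, hXT, hX1⟩ : ∃ j < N', ∃ X ⊆ S.filter (fun x => c' x = j),
              (T ∩ X).card < B.r X ∧ (q + 1) * B.r X - X.card < B.r X - (T ∩ X).card := by
            rcases hbad with ⟨i, hi, X, hX, hXT, hX1⟩ | h1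
            · exact absurd ⟨i, hi, X, hX, hXT⟩ hneA
            · exact h1
          obtain ⟨jB, hjB, FB, hFB, hFBT, hminB⟩ :=
            exists_min B S T c' N' (q + 1) ⟨i, hi, X, hX, hXT⟩
          have h1 := h.symm.side ih hT hTc hTB hTA hnoB hbad.symm hjB hFB hFBT hminB
            (fun i hi X hX hXT => absurd ⟨i, hi, X, hX, hXT⟩ hneA)
          exact h1.symm.mono (Subset.refl S) (by omega)

end

end Pool.Agent.Helper10.SPL
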