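import Mathlib
import Pool.Agent.Helper10.SPL.Main

/-!
From Mathlib matroids to rank functions on finite sets, and back.
-/

set_option autoImplicit false

namespace Pool.Agent.Helper10.SPL

open Finset
open Pool.Agent.Helper55.Rota

variable {α : Type} [DecidableEq α]

/-- a decomposition of the rank on the whole set is a direct sum decomposition -/
lemma dec_of_sum (A : RankFn α) (S : Finset α) (c : α → ℕ) (N : ℕ) (hlt : ∀ x ∈ S, c x < N)
    (hsum : ∑ j ∈ range N, A.r (S.filter (fun x => c x = j)) ≤ A.r S) : Dec A S c N := by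
  refine ⟨hlt, ?_⟩
  intro X hX
  apply le_antisymm
  · have h : ∀ t, A.r (X.filter (fun x => c x < t))
        ≤ ∑ j ∈ range t, A.r (X.filter (fun x => c x = j)) := by
      intro t
      induction t with
      | zero => simp [A.empty]
      | succ t ih =>
        rw [sum_range_succ]
        have h1 : X.filter (fun x => c x < t + 1)
            = X.filter (fun x => c x < t) ∪ X.filter (fun x => c x = t) := by
          ext a
          rw [mem_union, mem_filter, mem_filter, mem_filter]
          constructor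
          · rintro ⟨h1, h2⟩
            rcases Nat.lt_or_ge (c a) t with h3 | h3
            · exact Or.inl ⟨h1, h3⟩
            · exact Or.inr ⟨h1, by omega⟩
          · rintro (⟨h1, h2⟩ | ⟨h1, h2⟩)
            · exact ⟨h1, by omega⟩
            · exact ⟨h1, by omega⟩
        rw [h1]
        exact (A.union_le _ _).trans (Nat.add_le_add_right ih _)
    have h1 := h N
    rwa [filter_true_of_mem (fun x hx => hlt x (hX hx))] at h1
  · have h : ∀ t, A.r (X ∪ S.filter (fun x => c x < t))
        + ∑ j ∈ range t, A.r (X.filter (fun x => c x = j))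
        ≤ A.r X + ∑ j ∈ range t, A.r (S.filter (fun x => c x = j)) := by
      intro t
      induction t with
      | zero => simp
      | succ t ih =>
        rw [sum_range_succ, sum_range_succ]
        have h1 := A.submod (X ∪ S.filter (fun x => c x < t)) (S.filter (fun x => c x = t))
        have h2 : X ∪ S.filter (fun x => c x < t) ∪ S.filter (fun x => c x = t)
            = X ∪ S.filter (fun x => c x < t + 1) := by
          ext a
          rw [mem_union, mem_union, mem_union, mem_filter, mem_filter, mem_filter]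
          constructor
          · rintro ((h1 | ⟨h1, h2⟩) | ⟨h1, h2⟩)
            · exact Or.inl h1
            · exact Or.inr ⟨h1, by omega⟩
            · exact Or.inr ⟨h1, by omega⟩
          · rintro (h1 | ⟨h1, h2⟩)
            · exact Or.inl (Or.inl h1)
            · rcases Nat.lt_or_ge (c a) t with h3 | h3
              · exact Or.inl (Or.inr ⟨h1, h3⟩)
              · exact Or.inr ⟨h1, by omega⟩
        have h3 : X.filter (fun x => c x = t)
            ⊆ (X ∪ S.filter (fun x => c x < t)) ∩ S.filter (fun x => c x = t) := by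
          intro a ha
          rw [mem_filter] at ha
          rw [mem_inter, mem_union]
          exact ⟨Or.inl ha.1, mem_filter.mpr ⟨hX ha.1, ha.2⟩⟩
        have h4 := A.mono h3
        rw [h2] at h1
        omega
    have h1 := h N
    rw [filter_true_of_mem hlt, union_eq_right.mpr hX] at h1
    omega

/-- the number of blocks met by a set, as a rank function -/
def blk (b : α → ℕ) : RankFn α where
  r X := (X.image b).card
  empty := by simp
  mono := fun h => card_le_card (image_subset_image h)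
  insert_le := by
    intro X x
    rw [image_insert]
    exact card_insert_le _ _
  submod := by
    intro X Y
    have h1 := card_union_add_card_inter (X.image b) (Y.image b)
    have h2 := card_le_card (image_inter_subset b X Y)
    rw [← image_union] at h1
    omega

lemma blk_r (b : α → ℕ) (X : Finset α) : (blk b).r X = (X.image b).card := rfl

lemma blk_le_one (b : α → ℕ) (X : Finset α) (j : ℕ) :
    (blk b).r (X.filter (fun x => b x = j)) ≤ 1 := by
  rw [blk_r, ← card_singleton j]
  apply card_le_card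
  intro y hy
  rw [mem_image] at hy
  obtain ⟨x, hx, rfl⟩ := hy
  rw [mem_singleton]
  exact (mem_filter.mp hx).2

/-- blocks of size at most `k` -/
lemma blk_reg (b : α → ℕ) (S : Finset α) (n k : ℕ) (hlt : ∀ x ∈ S, b x < n)
    (hk : ∀ j < n, (S.filter (fun x => b x = j)).card = k) : Reg (blk b) S k := by
  intro X hX
  rw [blk_r, card_eq_sum_card_image b X, Nat.mul_comm, ← smul_eq_mul, ← sum_const]
  apply sum_le_sum
  intro j hj
  rw [mem_image] at hj
  obtain ⟨x, hx, rfl⟩ := hj
  rw [← hk (b x) (hlt x (hX hx))]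
  exact card_le_card (filter_subset_filter _ hX)

lemma blk_dec (b : α → ℕ) (S : Finset α) (n k : ℕ) (hlt : ∀ x ∈ S, b x < n)
    (hk : ∀ j < n, (S.filter (fun x => b x = j)).card = k) (hk0 : 0 < k) :
    Dec (blk b) S b n := by
  refine dec_of_sum (blk b) S b n hlt ?_
  have h1 : ∑ j ∈ range n, (blk b).r (S.filter (fun x => b x = j)) ≤ ∑ j ∈ range n, 1 :=
    sum_le_sum (fun j _ => blk_le_one b S j)
  refine h1.trans ?_
  rw [sum_const, card_range, smul_eq_mul, mul_one, blk_r]
  conv_lhs => rw [← card_range n]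
  apply card_le_card
  intro j hj
  rw [mem_range] at hj
  have h2 : (S.filter (fun x => b x = j)).Nonempty := by
    rw [← card_pos, hk j hj]; exact hk0
  obtain ⟨x, hx⟩ := h2
  rw [mem_image]
  exact ⟨x, (mem_filter.mp hx).1, (mem_filter.mp hx).2⟩

lemma blk_pot (b : α → ℕ) (S : Finset α) (n : ℕ) : pot (blk b) S b n = 0 := by
  unfold pot
  apply sum_eq_zero
  intro j _
  have := blk_le_one b S j
  omega

/-- the rank function of a matroid of finite rank -/
noncomputable def ofM (M : Matroid α) {n : ℕ} (hM : M.eRank = (n : ℕ∞)) : RankFn α :=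
  have hfin : ∀ X : Set α, M.eRk X ≠ ⊤ := by
    intro X
    have h1 := M.eRk_le_eRank X
    rw [hM] at h1
    exact ne_top_of_le_ne_top (ENat.natCast_ne_top n) h1
  have hcoe : ∀ X : Finset α, (((M.eRk (X : Set α)).toNat : ℕ) : ℕ∞) = M.eRk (X : Set α) :=
    fun X => ENat.natCast_toNat (hfin X)
  { r := fun X => (M.eRk (X : Set α)).toNat
    empty := by simp
    mono := by
      intro X Y h
      have h1 : (((M.eRk (X : Set α)).toNat : ℕ) : ℕ∞) ≤ (((M.eRk (Y : Set α)).toNat : ℕ) : ℕ∞) := by
        rw [hcoe X, hcoe Y]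
        exact M.eRk_mono (Finset.coe_subset.mpr h)
      exact_mod_cast h1
    insert_le := by
      intro X x
      have h1 : (((M.eRk ((insert x X : Finset α) : Set α)).toNat : ℕ) : ℕ∞)
          ≤ (((M.eRk (X : Set α)).toNat : ℕ) : ℕ∞) + 1 := by
        rw [hcoe X, hcoe (insert x X), Finset.coe_insert]
        exact M.eRk_insert_le_add_one x (X : Set α)
      exact_mod_cast h1
    submod := by
      intro X Y
      have h1 : (((M.eRk ((X ∩ Y : Finset α) : Set α)).toNat : ℕ) : ℕ∞)
          + (((M.eRk ((X ∪ Y : Finset α) : Set α)).toNat : ℕ) : ℕ∞)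
          ≤ (((M.eRk (X : Set α)).toNat : ℕ) : ℕ∞) + (((M.eRk (Y : Set α)).toNat : ℕ) : ℕ∞) := by
        rw [hcoe X, hcoe Y, hcoe (X ∩ Y), hcoe (X ∪ Y), Finset.coe_inter, Finset.coe_union]
        exact M.eRk_inter_add_eRk_union_le (X : Set α) (Y : Set α)
      have h2 : (M.eRk ((X ∩ Y : Finset α) : Set α)).toNat + (M.eRk ((X ∪ Y : Finset α) : Set α)).toNat
          ≤ (M.eRk (X : Set α)).toNat + (M.eRk (Y : Set α)).toNat := by exact_mod_cast h1
      omega }

lemma ofM_coe (M : Matroid α) {n : ℕ} (hM : M.eRank = (n : ℕ∞)) (X : Finset α) :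
    (((ofM M hM).r X : ℕ) : ℕ∞) = M.eRk (X : Set α) := by
  refine ENat.natCast_toNat ?_
  have h1 := M.eRk_le_eRank (X : Set α)
  rw [hM] at h1
  exact ne_top_of_le_ne_top (ENat.natCast_ne_top n) h1

lemma ofM_le (M : Matroid α) {n : ℕ} (hM : M.eRank = (n : ℕ∞)) (X : Finset α) :
    (ofM M hM).r X ≤ n := by
  have h1 := M.eRk_le_eRank (X : Set α)
  rw [hM, ← ofM_coe M hM X] at h1
  exact_mod_cast h1

lemma ofM_indep (M : Matroid α) {n : ℕ} (hM : M.eRank = (n : ℕ∞)) {X : Finset α}
    (hX : M.Indep (X : Set α)) : X.card = (ofM M hM).r X := by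
  have h1 := hX.eRk_eq_encard
  rw [← ofM_coe M hM, Set.encard_coe_eq_coe_finsetCard] at h1
  exact (by exact_mod_cast h1.symm)

/-- sets of full rank and size are bases -/
lemma ofM_base (M : Matroid α) {n : ℕ} (hM : M.eRank = (n : ℕ∞)) {T : Finset α}
    (hT : T.card = n) (hr : (ofM M hM).r T = n) : M.IsBase (T : Set α) := by
  have h5 : M.eRk (T : Set α) = (n : ℕ∞) := by
    rw [← ofM_coe M hM, hr]
  have h6 : M.Indep (T : Set α) := by
    rw [Matroid.indep_iff_eRk_eq_encard_of_finite (Finset.finite_toSet _), h5,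
      Set.encard_coe_eq_coe_finsetCard, hT]
  exact h6.isBase_of_eRk_ge (Finset.finite_toSet _) (by rw [h5, hM])

/-- the ground set is a union of `k` bases -/
lemma ofM_reg (M : Matroid α) {n k : ℕ} (hM : M.eRank = (n : ℕ∞)) (B : Fin k → Set α)
    (hB1 : ∀ i, M.IsBase (B i)) (E : Finset α) (hE : (E : Set α) ⊆ ⋃ i, B i) :
    Reg (ofM M hM) E k := by
  classical
  intro X hX
  have h1 : X.card ≤ ∑ i : Fin k, (X.filter (fun x => x ∈ B i)).card := by
    have h2 : X ⊆ (Finset.univ : Finset (Fin k)).biUnion (fun i => X.filter (fun x => x ∈ B i)) := by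
      intro x hx
      have h3 := hE (Finset.mem_coe.mpr (hX hx))
      rw [Set.mem_iUnion] at h3
      obtain ⟨i, hi⟩ := h3
      rw [Finset.mem_biUnion]
      exact ⟨i, Finset.mem_univ _, Finset.mem_filter.mpr ⟨hx, hi⟩⟩
    exact (Finset.card_le_card h2).trans Finset.card_biUnion_le
  have h3 : ∀ i : Fin k, (X.filter (fun x => x ∈ B i)).card ≤ (ofM M hM).r X := by
    intro i
    have h4 : M.Indep ((X.filter (fun x => x ∈ B i) : Finset α) : Set α) := by
      apply (hB1 i).indep.subset
      intro x hx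
      rw [Finset.mem_coe, Finset.mem_filter] at hx
      exact hx.2
    rw [ofM_indep M hM h4]
    exact (ofM M hM).mono (Finset.filter_subset _ _)
  calc X.card ≤ ∑ i : Fin k, (X.filter (fun x => x ∈ B i)).card := h1
    _ ≤ ∑ _i : Fin k, (ofM M hM).r X := Finset.sum_le_sum (fun i _ => h3 i)
    _ = k * (ofM M hM).r X := by simp

omit [DecidableEq α] in
/-- a partition of the ground set gives a labelling -/
lemma label {s : ℕ} (E : Set α) (P : Fin s → Set α) (hd : Pairwise fun i j => Disjoint (P i) (P j))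
    (hu : (⋃ i, P i) = E) :
    ∃ c : α → ℕ, (∀ x ∈ E, c x < s) ∧ ∀ x ∈ E, ∀ i : Fin s, c x = i ↔ x ∈ P i := by
  classical
  have h : ∀ x, ∃ m : ℕ, x ∈ E → ∃ i : Fin s, x ∈ P i ∧ m = i := by
    intro x
    by_cases hx : x ∈ E
    · have h1 := hx
      rw [← hu, Set.mem_iUnion] at h1
      obtain ⟨i, hi⟩ := h1
      exact ⟨i, fun _ => ⟨i, hi, rfl⟩⟩
    · exact ⟨0, fun h => absurd h hx⟩
  choose c hc using h
  refine ⟨c, ?_, ?_⟩
  · intro x hx
    obtain ⟨i, _, e⟩ := hc x hx
    rw [e]; exact i.2
  · intro x hx i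
    obtain ⟨i', hi', e⟩ := hc x hx
    constructor
    · intro h
      have : i' = i := Fin.ext (by rw [← e, h])
      rw [← this]; exact hi'
    · intro hxi
      by_contra hne
      have h1 : i' ≠ i := by
        intro h; apply hne; rw [e, h]
      exact Set.disjoint_left.mp (hd h1) hi' hxi

omit [DecidableEq α] in
lemma label_filter {s : ℕ} {E : Finset α} {P : Fin s → Set α} {c : α → ℕ}
    (hu : (⋃ i, P i) = (E : Set α))
    (hc : ∀ x ∈ (E : Set α), ∀ i : Fin s, c x = i ↔ x ∈ P i) (i : Fin s) :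
    ((E.filter (fun x => c x = i) : Finset α) : Set α) = P i := by
  ext x
  rw [Finset.mem_coe, Finset.mem_filter]
  constructor
  · rintro ⟨hx, hxi⟩; exact (hc x hx i).mp hxi
  · intro hx
    have hxE : x ∈ (E : Set α) := by rw [← hu]; exact Set.mem_iUnion_of_mem i hx
    exact ⟨hxE, (hc x hxE i).mpr hx⟩

/-- decomposition of a matroid -/
lemma ofM_dec (M : Matroid α) {n : ℕ} (hM : M.eRank = (n : ℕ∞)) {s : ℕ} {E : Finset α}
    (hE : (E : Set α) = M.E) {P : Fin s → Set α} {c : α → ℕ}
    (hu : (⋃ i, P i) = M.E) (hlt : ∀ x ∈ (E : Set α), c x < s)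
    (hc : ∀ x ∈ (E : Set α), ∀ i : Fin s, c x = i ↔ x ∈ P i)
    (hsum : ∑ i, M.eRk (P i) = M.eRank) :
    Dec (ofM M hM) E c s ∧
      ((pot (ofM M hM) E c s : ℕ) : ℕ∞) = ∑ i, (M.eRk (P i) - 2) := by
  have hu' : (⋃ i, P i) = (E : Set α) := by rw [hu, hE]
  have h1 : ∀ i : Fin s, (((ofM M hM).r (E.filter (fun x => c x = i)) : ℕ) : ℕ∞) = M.eRk (P i) := by
    intro i
    rw [ofM_coe, label_filter hu' hc i]
  refine ⟨dec_of_sum _ _ _ _ (fun x hx => hlt x hx) ?_, ?_⟩
  · have h2 : ((∑ j ∈ range s, (ofM M hM).r (E.filter (fun x => c x = j)) : ℕ) : ℕ∞)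
        ≤ (((ofM M hM).r E : ℕ) : ℕ∞) := by
      rw [Finset.sum_range, ofM_coe, hE, M.eRk_ground, ← hsum, Nat.cast_sum]
      exact le_of_eq (sum_congr rfl (fun i _ => h1 i))
    exact_mod_cast h2
  · unfold pot
    rw [Finset.sum_range, Nat.cast_sum]
    apply sum_congr rfl
    intro i _
    rw [← h1 i]
    push_cast
    rfl

/-- the output as an indexed family -/
lemma Good.family {n q p : ℕ} {A B : RankFn α} {S : Finset α} (h : Good n q A B S p) :
    ∃ (m : ℕ) (T : Fin m → Finset α), q ≤ m + p ∧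
      (∀ j, T j ⊆ S ∧ (T j).card = n ∧ A.r (T j) = n ∧ B.r (T j) = n) ∧
      (Pairwise fun j j' => Disjoint (T j) (T j')) := by
  obtain ⟨𝒯, h1, h2, h3⟩ := h
  let e := 𝒯.equivFin
  refine ⟨𝒯.card, fun j => (e.symm j : Finset α), h3, fun j => h1 _ (e.symm j).2, ?_⟩
  intro j j' hjj
  apply h2 _ (e.symm j).2 _ (e.symm j').2
  intro h
  exact hjj (e.symm.injective (Subtype.ext h))

end Pool.Agent.Helper10.SPL
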