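import Mathlib
import Pool.Agent.Helper10.SPL.Mat

/-!
The general form for two matroids.
-/

set_option autoImplicit false

namespace Pool.Agent.Helper10.SPL

open Pool.Agent.Helper55.Rota

/-- the ground set as a finite set -/
lemma finE {α : Type} (M : Matroid α) {n k : ℕ} (hM : M.eRank = (n : ℕ∞))
    (B : Fin k → Set α) (hB1 : ∀ i, M.IsBase (B i))
    (hB2 : Pairwise fun i j => Disjoint (B i) (B j)) (hB3 : (⋃ i, B i) = M.E) :
    ∃ E : Finset α, (E : Set α) = M.E ∧ E.card = k * n := by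
  classical
  have hBc : ∀ i, (B i).encard = (n : ℕ∞) := fun i => by
    rw [(hB1 i).encard_eq_eRank, hM]
  have hBfin : ∀ i, (B i).Finite := fun i => Set.finite_of_encard_eq_coe (hBc i)
  have hEfin : M.E.Finite := by
    rw [← hB3]; exact Set.finite_iUnion hBfin
  refine ⟨hEfin.toFinset, hEfin.coe_toFinset, ?_⟩
  have h1 : hEfin.toFinset = (Finset.univ : Finset (Fin k)).biUnion
      (fun i => (hBfin i).toFinset) := by
    ext x
    rw [Set.Finite.mem_toFinset, Finset.mem_biUnion, ← hB3, Set.mem_iUnion]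
    constructor
    · rintro ⟨i, hi⟩; exact ⟨i, Finset.mem_univ _, (Set.Finite.mem_toFinset _).mpr hi⟩
    · rintro ⟨i, _, hi⟩; exact ⟨i, (Set.Finite.mem_toFinset _).mp hi⟩
  rw [h1, Finset.card_biUnion]
  · have h2 : ∀ i : Fin k, ((hBfin i).toFinset).card = n := by
      intro i
      have h3 := hBc i
      rw [(hBfin i).encard_eq_coe_toFinset_card] at h3
      exact_mod_cast h3
    rw [Finset.sum_congr rfl (fun i _ => h2 i)]
    simp
  · intro i _ j _ hij
    refine Finset.disjoint_left.mpr ?_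
    intro a ha hb
    exact Set.disjoint_left.mp (hB2 hij) ((Set.Finite.mem_toFinset _).mp ha)
      ((Set.Finite.mem_toFinset _).mp hb)

/-- in rank zero the empty set is a basis, unless there are no bases -/
lemma base_empty {α : Type} (M : Matroid α) {k : ℕ} (hM : M.eRank = ((0 : ℕ) : ℕ∞))
    (B : Fin k → Set α) (hB1 : ∀ i, M.IsBase (B i)) (j : Fin k) : M.IsBase (∅ : Set α) := by
  have h1 := (hB1 j).encard_eq_eRank
  rw [hM] at h1
  have h2 : B j = ∅ := by
    rw [← Set.encard_eq_zero, h1]; rfl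
  rw [← h2]; exact hB1 _

/-- Let `M`, `N` be matroids of rank `n` on the same ground set, which is a disjoint union of
`k` bases of `M` and a disjoint union of `k` bases of `N`. Let `S`, `S'` be partitions of the
ground set with `∑ i, r_M(S i) = r(M)` and `∑ i, r_N(S' i) = r(N)`. Then there are at
least `k - ∑ (r_M(S i) - 2)^+ - ∑ (r_N(S' i) - 2)^+` disjoint common bases. -/
theorem two_matroids (α : Type) (M N : Matroid α) (n k : ℕ)
    (hE : M.E = N.E) (hM : M.eRank = (n : ℕ∞)) (hN : N.eRank = (n : ℕ∞))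
    (hBM : ∃ B : Fin k → Set α, (∀ i, M.IsBase (B i)) ∧
          (Pairwise fun i j => Disjoint (B i) (B j)) ∧ (⋃ i, B i) = M.E)
    (hBN : ∃ B : Fin k → Set α, (∀ i, N.IsBase (B i)) ∧
          (Pairwise fun i j => Disjoint (B i) (B j)) ∧ (⋃ i, B i) = M.E)
    (s s' : ℕ) (S : Fin s → Set α) (S' : Fin s' → Set α)
    (hSd : Pairwise fun i j => Disjoint (S i) (S j)) (hSu : (⋃ i, S i) = M.E)
    (hSs : ∑ i, M.eRk (S i) = M.eRank)
    (hSd' : Pairwise fun i j => Disjoint (S' i) (S' j)) (hSu' : (⋃ i, S' i) = M.E)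
    (hSs' : ∑ i, N.eRk (S' i) = N.eRank) :
    ∃ (m : ℕ) (T : Fin m → Set α),
      (k : ℕ∞) ≤ m + (∑ i, (M.eRk (S i) - 2) + ∑ i, (N.eRk (S' i) - 2)) ∧
      (∀ j, M.IsBase (T j) ∧ N.IsBase (T j)) ∧
      (Pairwise fun j j' => Disjoint (T j) (T j')) := by
  classical
  obtain ⟨B, hB1, hB2, hB3⟩ := hBM
  obtain ⟨B', hB1', hB2', hB3'⟩ := hBN
  rcases Nat.eq_zero_or_pos n with hn | hn
  · subst hn
    exact ⟨k, fun _ => ∅, le_self_add,
      fun j => ⟨base_empty M hM B hB1 j, base_empty N hN B' hB1' j⟩,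
      fun j j' _ => disjoint_bot_left⟩
  · obtain ⟨E, hE1, hE2⟩ := finE M hM B hB1 hB2 hB3
    obtain ⟨c, hlt, hc⟩ := label (E : Set α) S hSd (by rw [hSu, hE1])
    obtain ⟨c', hlt', hc'⟩ := label (E : Set α) S' hSd' (by rw [hSu', hE1])
    have hE1' : (E : Set α) = N.E := by rw [hE1, hE]
    obtain ⟨hD, hp⟩ := ofM_dec M hM hE1 hSu hlt hc hSs
    obtain ⟨hD', hp'⟩ := ofM_dec N hN hE1' (by rw [hSu', hE]) hlt' hc' hSs'
    have hst : St n k (ofM M hM) (ofM N hN) E c c' s s' :=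
      ⟨hD, hD', ofM_reg M hM B hB1 E (by rw [hB3, hE1]),
        ofM_reg N hN B' hB1' E (by rw [hB3', hE1]), hE2, ofM_le M hM E, ofM_le N hN E⟩
    obtain ⟨m, T, h1, h2, h3⟩ := (claim hn k _ _ _ E c c' s s' hst rfl).family
    refine ⟨m, fun j => (T j : Set α), ?_, ?_, ?_⟩
    · rw [← hp, ← hp']
      exact_mod_cast h1
    · intro j
      obtain ⟨_, h4, h5, h6⟩ := h2 j
      exact ⟨ofM_base M hM h4 h5, ofM_base N hN h4 h6⟩
    · intro j j' hjj
      exact Finset.disjoint_coe.mpr (h3 hjj)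

end Pool.Agent.Helper10.SPL
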